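import Pool.Agent.helper59.PT.Spec
import Pool.Agent.helper80.LSZ.Loss

set_option linter.all false
set_option autoImplicit false

/-!
Row pt:AS (MP_2dd521_co): assembly of the three copies inequality along the ring path.
-/

namespace Pool.Agent.helper13.PT

open Pool.Agent.helper59.PT
open scoped ComplexConjugate ComplexOrder

theorem rowAS : RowAS := by
  intro a ha0 ha3 hLEG hDV hBase m B hB
  set N : ℝ → ℝ := fun r => (KB (cr a r) B).permanent.re with hN
  set q : ℝ → ℝ := fun r => perc (cr a r) with hq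
  have hqe : ∀ r, q r = (1 + r * (2 - a)) ^ 3 + (1 + r * (a - 1)) ^ 3 + (1 - r) ^ 3 +
      3 * (1 + r * (2 - a)) * (1 + r * (a - 1)) * (1 - r) := by
    intro r
    simp [hq, perc, cr]
  have hqpos : ∀ r, 0 ≤ r → r ≤ 1 → 0 < q r := by
    intro r h0 h1
    rw [hqe]
    have hc0 : 0 ≤ 1 + r * (2 - a) := by nlinarith
    have hc1 : 0 ≤ 1 + r * (a - 1) := by nlinarith
    have hc2 : 0 ≤ 1 - r := by linarith
    have h3 : 0 ≤ 3 * (1 + r * (2 - a)) * (1 + r * (a - 1)) * (1 - r) := by positivity
    have e0 : 0 ≤ (1 + r * (2 - a)) ^ 3 := by positivity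
    have e1 : 0 ≤ (1 + r * (a - 1)) ^ 3 := by positivity
    have e2 : 0 ≤ (1 - r) ^ 3 := by positivity
    by_cases hA : 0 < 1 + r * (2 - a)
    · have : 0 < (1 + r * (2 - a)) ^ 3 := by positivity
      linarith
    · by_cases hB' : 0 < 1 + r * (a - 1)
      · have : 0 < (1 + r * (a - 1)) ^ 3 := by positivity
        linarith
      · have hC : 0 < 1 - r := by nlinarith
        have : 0 < (1 - r) ^ 3 := by positivity
        linarith
  have hqd : ∀ r, HasDerivAt q (3 * (1 + r * (2 - a)) ^ 2 * (2 - a) +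
      3 * (1 + r * (a - 1)) ^ 2 * (a - 1) - 3 * (1 - r) ^ 2 +
      3 * ((2 - a) * (1 + r * (a - 1)) * (1 - r) + (1 + r * (2 - a)) * (a - 1) * (1 - r) -
        (1 + r * (2 - a)) * (1 + r * (a - 1)))) r := by
    intro r
    have hfun : q = fun r => (1 + r * (2 - a)) ^ 3 + (1 + r * (a - 1)) ^ 3 + (1 - r) ^ 3 +
      3 * (1 + r * (2 - a)) * (1 + r * (a - 1)) * (1 - r) := funext hqe
    rw [hfun]
    have d0 : HasDerivAt (fun r : ℝ => 1 + r * (2 - a)) (2 - a) r := by
      simpa using ((hasDerivAt_id r).mul_const (2 - a)).const_add 1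
    have d1 : HasDerivAt (fun r : ℝ => 1 + r * (a - 1)) (a - 1) r := by
      simpa using ((hasDerivAt_id r).mul_const (a - 1)).const_add 1
    have d2 : HasDerivAt (fun r : ℝ => 1 - r) (-1) r := by
      simpa using (hasDerivAt_id r).const_sub 1
    have h := (((d0.pow 3).add (d1.pow 3)).add (d2.pow 3)).add (((d0.const_mul 3).mul d1).mul d2)
    refine HasDerivAt.congr_deriv h ?_
    push_cast
    simp only [Nat.add_one_sub_one, pow_two, Pi.mul_apply]
    ring
  have hn9 : ∀ r, n9 (cr a r) = 9 * ((1 + r * (2 - a)) ^ 2 + (1 + r * (a - 1)) ^ 2 + (1 - r) ^ 2 +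
      (1 + r * (2 - a)) * (1 + r * (a - 1)) + (1 + r * (2 - a)) * (1 - r) +
      (1 + r * (a - 1)) * (1 - r)) := by
    intro r
    simp [n9, cr]
  have hNc : Continuous N := by
    have h1 : Continuous (fun r : ℝ => (KB (cr a r) B).permanent) := by
      have : (fun r : ℝ => (KB (cr a r) B).permanent) = fun r : ℝ =>
          ∑ σ : Equiv.Perm (Fin 3 × Fin m), ∏ x, (((circ (cr a r) (σ x).1 x.1 : ℝ) : ℂ) *
            B (σ x).2 x.2) := by
        funext r
        simp [Matrix.permanent, KB]
      rw [this]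
      refine continuous_finset_sum _ fun σ _ => continuous_finset_prod _ fun x _ => ?_
      refine Continuous.mul ?_ continuous_const
      refine Complex.continuous_ofReal.comp ?_
      have hc : ∀ j : Fin 3, Continuous (fun r : ℝ => cr a r j) := by
        intro j
        fin_cases j
        · show Continuous (fun r : ℝ => 1 + r * (2 - a))
          fun_prop
        · show Continuous (fun r : ℝ => 1 + r * (a - 1))
          fun_prop
        · show Continuous (fun r : ℝ => 1 - r)
          fun_prop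
      exact hc _
    exact Complex.continuous_re.comp h1
  have hqc : Continuous q := by
    have hfun : q = fun r => (1 + r * (2 - a)) ^ 3 + (1 + r * (a - 1)) ^ 3 + (1 - r) ^ 3 +
      3 * (1 + r * (2 - a)) * (1 + r * (a - 1)) * (1 - r) := funext hqe
    rw [hfun]
    fun_prop
  have hF : AntitoneOn (fun r => N r / q r ^ m) (Set.Icc 0 1) := by
    have hder : ∀ r, 0 < r → r < 1 → ∃ d, d ≤ 0 ∧ HasDerivAt (fun r => N r / q r ^ m) d r := by
      intro r h0 h1
      have hqr := hqpos r h0.le h1.le
      have hNd := hDV a m B r h0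
      have hd := hNd.div ((hqd r).pow m) (pow_pos hqr m).ne'
      refine ⟨_, ?_, hd⟩
      refine div_nonpos_of_nonpos_of_nonneg ?_ (by positivity)
      set q' := (3 * (1 + r * (2 - a)) ^ 2 * (2 - a) +
      3 * (1 + r * (a - 1)) ^ 2 * (a - 1) - 3 * (1 - r) ^ 2 +
      3 * ((2 - a) * (1 + r * (a - 1)) * (1 - r) + (1 + r * (2 - a)) * (a - 1) * (1 - r) -
        (1 + r * (2 - a)) * (1 + r * (a - 1)))) with hq'
      have hid : r * q' = 3 * q r - n9 (cr a r) / 3 := by
        rw [hqe, hn9, hq']
        ring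
      -- bound for the derivative of N
      have hsum : ∀ s : Fin m, (3 * (KB (cr a r) B).permanent.re -
          ∑ p : Fin 3, ((KB (cr a r) B).updateRow (p, s) (fun y => B s y.2)).permanent.re) ≤
          N r * (r * q') / q r := by
        intro s
        have h := hLEG r h0 h1 m B hB s
        rw [le_div_iff₀ hqr, hid]
        have : n9 (cr a r) / 3 * N r ≤ q r *
          ∑ p : Fin 3, ((KB (cr a r) B).updateRow (p, s) (fun y => B s y.2)).permanent.re := h
        simp only [hN] at this ⊢
        nlinarith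
      have hNd' : r⁻¹ * ∑ s : Fin m, (3 * (KB (cr a r) B).permanent.re -
          ∑ p : Fin 3, ((KB (cr a r) B).updateRow (p, s) (fun y => B s y.2)).permanent.re) ≤
          m * (N r * q') / q r := by
        have h2 : ∑ s : Fin m, (3 * (KB (cr a r) B).permanent.re -
          ∑ p : Fin 3, ((KB (cr a r) B).updateRow (p, s) (fun y => B s y.2)).permanent.re) ≤
          m * (N r * (r * q') / q r) := by
          calc _ ≤ ∑ s : Fin m, N r * (r * q') / q r := Finset.sum_le_sum fun s _ => hsum s
            _ = _ := by simp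
        calc _ ≤ r⁻¹ * (m * (N r * (r * q') / q r)) :=
              mul_le_mul_of_nonneg_left h2 (inv_nonneg.2 h0.le)
          _ = _ := by field_simp
      rcases Nat.eq_zero_or_pos m with hm | hm
      · subst hm
        have hz : r⁻¹ * ∑ s : Fin 0, (3 * (KB (cr a r) B).permanent.re -
          ∑ p : Fin 3, ((KB (cr a r) B).updateRow (p, s) (fun y => B s y.2)).permanent.re) = 0 := by
          simp
        rw [hz]
        simp
      · obtain ⟨k, rfl⟩ : ∃ k, m = k + 1 := ⟨m - 1, by omega⟩
        have h3 := mul_le_mul_of_nonneg_right hNd' (pow_pos hqr (k + 1)).le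
        have h4 : ((k + 1 : ℕ) : ℝ) * (N r * q') / q r * q r ^ (k + 1) =
            N r * (((k + 1 : ℕ) : ℝ) * q r ^ k * q') := by
          rw [pow_succ]
          field_simp
        rw [h4] at h3
        have h5 : (k + 1 - 1 : ℕ) = k := by omega
        rw [h5]
        simp only [Pi.pow_apply, hN] at h3 ⊢
        linarith
    refine antitoneOn_of_deriv_nonpos (convex_Icc 0 1) ?_ ?_ ?_
    · refine ContinuousOn.div hNc.continuousOn (hqc.pow m).continuousOn ?_
      intro r hr
      exact (pow_pos (hqpos r hr.1 hr.2) m).ne'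
    · intro r hr
      rw [interior_Icc] at hr
      obtain ⟨d, -, hd⟩ := hder r hr.1 hr.2
      exact hd.differentiableAt.differentiableWithinAt
    · intro r hr
      rw [interior_Icc] at hr
      obtain ⟨d, hd0, hd⟩ := hder r hr.1 hr.2
      rw [hd.deriv]
      exact hd0
  have h01 := hF (Set.left_mem_Icc.2 zero_le_one) (Set.right_mem_Icc.2 zero_le_one) zero_le_one
  simp only at h01
  have hc1 : cr a 1 = ![3 - a, a, 0] := by
    funext j
    fin_cases j
    · show 1 + 1 * (2 - a) = 3 - a
      ring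
    · show 1 + 1 * (a - 1) = a
      ring
    · show (1 : ℝ) - 1 = 0
      ring
  have hN1 : ((3 - a) ^ 3 + a ^ 3) ^ m * B.permanent.re ^ 3 ≤ N 1 := by
    have := hBase m B hB (3 - a) a (by linarith) ha0
    simp only [hN]
    rw [hc1]
    exact this
  have hq1 : q 1 = (3 - a) ^ 3 + a ^ 3 := by
    rw [hqe]
    ring
  have hq0 : q 0 = 6 := by
    rw [hqe]
    ring
  have hN0 : KB (cr a 0) B = Pool.Agent.helper80.LSZ.kron1 3 B := by
    ext x y
    have hc0 : ∀ j : Fin 3, cr a 0 j = 1 := by
      intro j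
      fin_cases j
      · show 1 + 0 * (2 - a) = 1
        ring
      · show 1 + 0 * (a - 1) = 1
        ring
      · show (1 : ℝ) - 0 = 1
        ring
    simp [KB, circ, hc0, Pool.Agent.helper80.LSZ.kron1]
  obtain ⟨b, hb0, hb⟩ := Pool.Agent.helper80.LSZ.per_real B hB
  obtain ⟨p, hp0, hp⟩ := Pool.Agent.helper80.LSZ.per_real _
    (Pool.Agent.helper80.LSZ.kron1_psd B hB 3)
  have hN0' : N 0 = p := by
    simp only [hN]
    rw [hN0, hp]
    simp
  have hq1pos := hqpos 1 zero_le_one le_rfl
  rw [hq1] at h01 hq1pos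
  rw [hq0, hN0'] at h01
  rw [hb] at hN1
  have hN1' : b ^ 3 ≤ N 1 / ((3 - a) ^ 3 + a ^ 3) ^ m := by
    rw [le_div_iff₀ (pow_pos hq1pos m)]
    have h6 : ((b : ℝ) : ℂ).re = b := Complex.ofReal_re b
    rw [h6] at hN1
    linarith
  have hfin : (6 : ℝ) ^ m * b ^ 3 ≤ p := by
    have h7 : b ^ 3 ≤ p / 6 ^ m := hN1'.trans h01
    rw [le_div_iff₀ (by positivity)] at h7
    linarith
  rw [hb, hp]
  exact_mod_cast hfin

end Pool.Agent.helper13.PT
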