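import Pool.Agent.helper80.LSZ.Pate

set_option linter.all false
set_option autoImplicit false

/-!
# Pate's inequality for matrices of small rank

If `2 * rank B ≤ m + 1` then `per (J_k ⊗ B) / (k!)^m` is log-convex in `k`, and Pate's inequality
holds for every `k`.
-/

namespace Pool.Agent.helper13.PateHalf

open Finset
open scoped ComplexOrder
open Pool.Agent.helper80.LSZ

theorem asc_eq (a m : ℕ) : (a.ascFactorial m : ℝ) = ∏ j ∈ range m, ((a : ℝ) + j) := by
  induction m with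
  | zero => simp
  | succ m ih =>
    rw [Nat.ascFactorial_succ, Finset.prod_range_succ, ← ih]
    push_cast
    ring

theorem prod_sq (m : ℕ) (f : ℕ → ℝ) :
    (∏ j ∈ range m, f j) ^ 2 = ∏ j ∈ range m, (f j * f (m - 1 - j)) := by
  rw [Finset.prod_mul_distrib, Finset.prod_range_reflect, sq]

theorem asc_ratio (m r k : ℕ) (h : 2 * r ≤ m + 1) :
    ((k : ℝ) + 2) ^ m * ((r + k * m).ascFactorial m : ℝ) ≤
      ((k : ℝ) + 1) ^ m * ((r + (k + 1) * m).ascFactorial m : ℝ) := by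
  have e1 : ((k : ℝ) + 2) ^ m * ((r + k * m).ascFactorial m : ℝ) =
      ∏ j ∈ range m, (((k : ℝ) + 2) * ((r : ℝ) + k * m + j)) := by
    rw [asc_eq, Finset.prod_mul_distrib, Finset.prod_const, Finset.card_range]
    push_cast
    rfl
  have e2 : ((k : ℝ) + 1) ^ m * ((r + (k + 1) * m).ascFactorial m : ℝ) =
      ∏ j ∈ range m, (((k : ℝ) + 1) * ((r : ℝ) + (k + 1) * m + j)) := by
    rw [asc_eq, Finset.prod_mul_distrib, Finset.prod_const, Finset.card_range]
    push_cast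
    rfl
  rw [e1, e2]
  refine le_of_sq_le_sq ?_ (Finset.prod_nonneg fun j _ => by positivity)
  rw [prod_sq, prod_sq]
  refine Finset.prod_le_prod (fun j _ => by positivity) fun j hj => ?_
  have hj' := Finset.mem_range.1 hj
  have hc : ((m - 1 - j : ℕ) : ℝ) = (m : ℝ) - 1 - j := by
    rw [Nat.cast_sub (by omega), Nat.cast_sub (by omega)]
    simp
  rw [hc]
  have hr : 2 * (r : ℝ) ≤ m + 1 := by exact_mod_cast h
  have hk : (0 : ℝ) ≤ k := Nat.cast_nonneg k
  have hr0 : (0 : ℝ) ≤ r := Nat.cast_nonneg r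
  have hm1 : (1 : ℝ) ≤ m := by exact_mod_cast (by omega : 1 ≤ m)
  have hkm : (0 : ℝ) ≤ k * m := by positivity
  set c : ℝ := (r : ℝ) + k * m + (m - 1) / 2 with hcdef
  set d : ℝ := (j : ℝ) - (m - 1) / 2 with hddef
  have l1 : ((k : ℝ) + 2) * ((r : ℝ) + k * m + j) * (((k : ℝ) + 2) * ((r : ℝ) + k * m + (m - 1 - j)))
      = ((k : ℝ) + 2) ^ 2 * (c ^ 2 - d ^ 2) := by
    rw [hcdef, hddef]; ring
  have l2 : ((k : ℝ) + 1) * ((r : ℝ) + (k + 1) * m + j) *
      (((k : ℝ) + 1) * ((r : ℝ) + (k + 1) * m + (m - 1 - j)))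
      = ((k : ℝ) + 1) ^ 2 * ((c + m) ^ 2 - d ^ 2) := by
    rw [hcdef, hddef]; ring
  rw [l1, l2]
  have h0 : 0 ≤ c := by rw [hcdef]; linarith
  have h1 : ((k : ℝ) + 2) * c ≤ ((k : ℝ) + 1) * (c + m) := by
    have : c ≤ (k + 1) * m := by rw [hcdef]; linarith
    nlinarith
  have h2 : (((k : ℝ) + 2) * c) ^ 2 ≤ (((k : ℝ) + 1) * (c + m)) ^ 2 :=
    pow_le_pow_left₀ (by positivity) h1 2
  nlinarith [sq_nonneg d, mul_nonneg hk (sq_nonneg d)]

theorem conv {m : ℕ} (B : Matrix (Fin m) (Fin m) ℂ) (hB : B.PosSemidef)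
    (h : 2 * B.rank ≤ m + 1) (k : ℕ) :
    ((k + 2 : ℕ) : ℂ) ^ m * (kron1 (k + 1) B).permanent ^ 2 ≤
      ((k + 1 : ℕ) : ℂ) ^ m * ((kron1 k B).permanent * (kron1 (k + 2) B).permanent) := by
  obtain ⟨L, hL⟩ := exists_fac B hB B.rank le_rfl
  rw [W_eq L B hL, W_eq L B hL, W_eq L B hL]
  have h1 := logconv' L k
  have h2 := asc_ratio m B.rank k h
  have h3 : 0 ≤ W L k * W L (k + 2) := mul_nonneg (W_nonneg L k) (W_nonneg L (k + 2))
  have main : ((k : ℝ) + 2) ^ m * W L (k + 1) ^ 2 ≤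
      ((k : ℝ) + 1) ^ m * (W L k * W L (k + 2)) := by
    rcases Nat.eq_zero_or_pos m with hm | hm
    · subst hm
      have := h1
      simp only [Q, Nat.ascFactorial_zero, Nat.cast_one, mul_one] at this
      simpa using this
    · have q1 : 0 < Q B.rank m (k + 1) := by
        unfold Q
        obtain ⟨a, ha⟩ : ∃ a, B.rank + (k + 1) * m = a + 1 := by
          have : 1 ≤ (k + 1) * m := Nat.mul_pos (by omega) hm
          exact ⟨B.rank + (k + 1) * m - 1, by omega⟩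
        rw [ha]
        exact_mod_cast Nat.ascFactorial_pos _ _
      have h4 : ((k : ℝ) + 2) ^ m * Q B.rank m k ≤ ((k : ℝ) + 1) ^ m * Q B.rank m (k + 1) := h2
      refine le_of_mul_le_mul_right ?_ q1
      calc ((k : ℝ) + 2) ^ m * W L (k + 1) ^ 2 * Q B.rank m (k + 1)
          = ((k : ℝ) + 2) ^ m * (W L (k + 1) ^ 2 * Q B.rank m (k + 1)) := by ring
        _ ≤ ((k : ℝ) + 2) ^ m * (W L k * W L (k + 2) * Q B.rank m k) :=
            mul_le_mul_of_nonneg_left h1 (by positivity)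
        _ = (W L k * W L (k + 2)) * (((k : ℝ) + 2) ^ m * Q B.rank m k) := by ring
        _ ≤ (W L k * W L (k + 2)) * (((k : ℝ) + 1) ^ m * Q B.rank m (k + 1)) :=
            mul_le_mul_of_nonneg_left h4 h3
        _ = _ := by ring
  exact_mod_cast main

theorem asc_le (m r : ℕ) (h : 2 * r ≤ m + 1) : r.ascFactorial m ≤ m ^ m := by
  have e : (r.ascFactorial m : ℝ) ≤ ∏ j ∈ range m, (m : ℝ) := by
    rw [asc_eq]
    refine le_of_sq_le_sq ?_ (Finset.prod_nonneg fun j _ => by positivity)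
    rw [prod_sq, prod_sq]
    refine Finset.prod_le_prod (fun j _ => by positivity) fun j hj => ?_
    have hj' := Finset.mem_range.1 hj
    have hc : ((m - 1 - j : ℕ) : ℝ) = (m : ℝ) - 1 - j := by
      rw [Nat.cast_sub (by omega), Nat.cast_sub (by omega)]
      simp
    rw [hc]
    have hr : 2 * (r : ℝ) ≤ m + 1 := by exact_mod_cast h
    have hr0 : (0 : ℝ) ≤ r := Nat.cast_nonneg r
    have hm1 : (1 : ℝ) ≤ m := by exact_mod_cast (by omega : 1 ≤ m)
    nlinarith [sq_nonneg ((j : ℝ) - (m - 1) / 2)]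
  rw [Finset.prod_const, Finset.card_range] at e
  exact_mod_cast e

/-- Pate's inequality for every `k` and log-convexity in `k`, if `2 * rank B ≤ m + 1`. -/
theorem pate_half {m : ℕ} (B : Matrix (Fin m) (Fin m) ℂ) (hB : B.PosSemidef)
    (h : 2 * B.rank ≤ m + 1) (k : ℕ) :
    ((k.factorial : ℕ) : ℂ) ^ m * B.permanent ^ k ≤ (kron1 k B).permanent ∧
      ((k + 2 : ℕ) : ℂ) ^ m * (kron1 (k + 1) B).permanent ^ 2 ≤
        ((k + 1 : ℕ) : ℂ) ^ m * ((kron1 k B).permanent * (kron1 (k + 2) B).permanent) :=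
  ⟨pate_rank B hB B.rank le_rfl (asc_le m B.rank h) k, conv B hB h k⟩

/-- Pate's inequality for every `k` in the larger range `r (r + 1) ⋯ (r + m - 1) ≤ m ^ m`,
`r = rank B`. -/
theorem pate_asc {m : ℕ} (B : Matrix (Fin m) (Fin m) ℂ) (hB : B.PosSemidef)
    (h : B.rank.ascFactorial m ≤ m ^ m) (k : ℕ) :
    ((k.factorial : ℕ) : ℂ) ^ m * B.permanent ^ k ≤ (kron1 k B).permanent :=
  pate_rank B hB B.rank le_rfl h k

end Pool.Agent.helper13.PateHalf
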