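import Pool.Agent.helper36.PT.Spec
import Pool.Agent.helper71.AA.K4

/-! # Project PT (MP_ad8ced_nt), row OFF: the off-diagonal terms -/

set_option autoImplicit false

namespace Pool.Agent.PT

open Finset Pool.Agent.helper71.AA

theorem OFF_Gs_one (w Z : ℕ) (R : ℝ) (hR : 1 ≤ R) : 1 ≤ Gs (Qs w Z) R := by
  have hQ : ∀ l ∈ Qs w Z, 2 ≤ l := by
    intro l hl
    unfold Qs at hl
    exact (mem_filter.1 hl).2.two_le
  unfold Gs
  have hmem : (∅ : Finset ℕ) ∈ Sub (Qs w Z) R := by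
    unfold Pool.Agent.helper71.AA.Sub
    rw [mem_filter]
    refine ⟨empty_mem_powerset _, ?_⟩
    unfold pr
    rw [prod_empty]
    exact hR
  have h1 : (1 : ℝ) / ph ∅ = 1 := by
    unfold ph
    rw [prod_empty, div_one]
  calc (1 : ℝ) = 1 / ph ∅ := h1.symm
    _ ≤ ∑ K ∈ Sub (Qs w Z) R, 1 / ph K := by
      apply single_le_sum (f := fun K => 1 / ph K) _ hmem
      intro K hK
      unfold Pool.Agent.helper71.AA.Sub at hK
      rw [mem_filter, mem_powerset] at hK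
      apply one_div_nonneg.2
      unfold ph
      apply prod_nonneg
      intro l hl
      have h2 : 2 ≤ l := hQ l (hK.1 hl)
      have h3 : (2 : ℝ) ≤ l := by exact_mod_cast h2
      linarith

theorem OFF (h1 : OFP_stmt) : OFF_stmt := by
  intro eps heps
  obtain ⟨C, hC, hpa⟩ := pair_avg
  refine ⟨max 200 (⌈6400 * C / eps⌉₊ + ⌈C⌉₊), ?_⟩
  intro w hw η hη hη2
  have hw200 : 200 ≤ w := (le_max_left _ _).trans hw
  have hw' : ⌈6400 * C / eps⌉₊ + ⌈C⌉₊ ≤ w := (le_max_right _ _).trans hw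
  have hwpos : (0 : ℝ) < w := by
    have : 0 < w := by omega
    exact_mod_cast this
  have hwC : C / w ≤ 1 := by
    rw [div_le_one hwpos]
    have h2 : ⌈C⌉₊ ≤ w := by omega
    exact (Nat.le_ceil C).trans (by exact_mod_cast h2)
  have hwE : 6400 * (C / w) ≤ eps := by
    have h2 : ⌈6400 * C / eps⌉₊ ≤ w := by omega
    have h3 : 6400 * C / eps ≤ w := (Nat.le_ceil _).trans (by exact_mod_cast h2)
    rw [div_le_iff₀ heps] at h3
    rw [← mul_div_assoc, div_le_iff₀ hwpos]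
    linarith
  obtain ⟨P₀, hP₀⟩ := hpa w hw200
  obtain ⟨X₁, hX₁⟩ := h1 w (by omega) η hη (by linarith)
  have hWn : 0 < primorial w := primorial_pos w
  have hW : (0 : ℝ) < (primorial w : ℝ) := by exact_mod_cast hWn
  -- asymptotics
  have hlim1 : Filter.Tendsto (fun X : ℝ => X ^ (-(η / 3))) Filter.atTop (nhds 0) :=
    tendsto_rpow_neg_atTop (by positivity)
  have hlim2 : Filter.Tendsto (fun X : ℝ => X ^ (-(0.0002 : ℝ))) Filter.atTop (nhds 0) :=
    tendsto_rpow_neg_atTop (by norm_num)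
  have hlogs : Filter.Tendsto (fun X : ℝ => 1 * Real.log X * Real.log (Real.log X))
      Filter.atTop Filter.atTop := by
    simp only [one_mul]
    exact Real.tendsto_log_atTop.atTop_mul_atTop₀
      (Real.tendsto_log_atTop.comp Real.tendsto_log_atTop)
  have e1 : ∀ᶠ X : ℝ in Filter.atTop, X ^ (-(η / 3)) < eps * η ^ 2 / 8 :=
    hlim1.eventually_lt_const (by positivity)
  have e2 : ∀ᶠ X : ℝ in Filter.atTop,
      X ^ (-(0.0002 : ℝ)) < eps * η ^ 2 / (4 * (primorial w : ℝ)) :=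
    hlim2.eventually_lt_const (by positivity)
  have e3 : ∀ᶠ X : ℝ in Filter.atTop, P₀ ≤ 1 * Real.log X * Real.log (Real.log X) :=
    hlogs.eventually_ge_atTop P₀
  obtain ⟨X₂, hX₂⟩ := Filter.eventually_atTop.1 (e1.and (e2.and e3))
  refine ⟨max (max X₁ X₂) 1, ?_⟩
  intro X P hX hR a₀ b hb ξ hξ hV0 hV20
  have hXX1 : X₁ ≤ X := ((le_max_left _ _).trans (le_max_left _ _)).trans hX
  have hXX2 : X₂ ≤ X := ((le_max_right _ _).trans (le_max_left _ _)).trans hX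
  have hX1 : (1 : ℝ) ≤ X := (le_max_right _ _).trans hX
  have hXpos : (0 : ℝ) < X := by linarith
  obtain ⟨f1, f2, f3⟩ := hX₂ X hXX2
  have hPP : P₀ ≤ P := f3.trans hR.1
  have hpair := hP₀ P hPP b hb (Qm w X η) (fun l hl => by
    unfold Qm Qs at hl
    rw [mem_filter, mem_Ioc] at hl
    exact ⟨hl.2, hl.1.1⟩)
  set S : Finset ℕ := Ps (primorial w) b P with hS
  set G : ℝ := Gs (Qm w X η) (Rr X) with hG
  set V : ℝ := Vx (Ql X η) ξ with hV
  have hG1 : 1 ≤ G := by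
    rw [hG]
    unfold Qm
    apply OFF_Gs_one
    unfold Rr
    exact Real.one_le_rpow hX1 (by norm_num)
  have hV1 : V ≤ 1 := by linarith
  have hb' : ∀ p ∈ S, ∀ q ∈ S.erase p,
      EN (primorial w) a₀ (2 * X) (fun a => fw w X η ξ p a * fw w X η ξ q a) ≤
        2 * X / (primorial w : ℝ) * G ^ 2 *
          (V ^ 2 * (1 + 4 * (Cf (Qm w X η) p q - 1)) + Cf (Qm w X η) p q * X ^ (-(η / 3))) +
        X ^ (0.9998 : ℝ) := by
    intro p hp q hq
    have hq' := mem_of_mem_erase hq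
    have hne : p ≠ q := (ne_of_mem_erase hq).symm
    have hle : ∀ r ∈ S, (r : ℝ) ≤ X ^ (0.0001 : ℝ) := by
      intro r hr
      rw [hS] at hr
      unfold Ps at hr
      rw [mem_filter, mem_Icc] at hr
      have h2 : (r : ℝ) ≤ P := (Nat.le_floor_iff' (by omega)).1 hr.1.2
      exact h2.trans hR.2
    exact hX₁ X hXX1 p q (K4_prime hp) (K4_prime hq') hne (K4_gt hb hp) (K4_gt hb hq')
      (hle p hp) (hle q hq') a₀ ξ hξ hV0 hV1
  set N : ℝ := ((S.card : ℕ) : ℝ) with hN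
  have hN0 : 0 ≤ N := Nat.cast_nonneg _
  have hone : ∑ p ∈ S, ∑ q ∈ S.erase p, (1 : ℝ) ≤ N ^ 2 := by
    calc ∑ p ∈ S, ∑ q ∈ S.erase p, (1 : ℝ) ≤ ∑ p ∈ S, N := by
          apply sum_le_sum
          intro p _
          rw [sum_const, nsmul_eq_mul, mul_one]
          have h2 : ((S.erase p).card : ℝ) ≤ ((S.card : ℕ) : ℝ) := by
            exact_mod_cast card_erase_le (s := S) (a := p)
          exact h2
      _ = N ^ 2 := by rw [sum_const, nsmul_eq_mul]; ring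
  have hcf : ∑ p ∈ S, ∑ q ∈ S.erase p, (Cf (Qm w X η) p q - 1) ≤ C / w * N ^ 2 := hpair
  have hXη : 0 < X ^ (-(η / 3)) := Real.rpow_pos_of_pos hXpos _
  have hsum : ∑ p ∈ S, ∑ q ∈ S.erase p,
      EN (primorial w) a₀ (2 * X) (fun a => fw w X η ξ p a * fw w X η ξ q a) ≤
      (2 * X / (primorial w : ℝ) * G ^ 2 * (V ^ 2 + X ^ (-(η / 3))) + X ^ (0.9998 : ℝ)) *
        (∑ p ∈ S, ∑ q ∈ S.erase p, (1 : ℝ)) +
      2 * X / (primorial w : ℝ) * G ^ 2 * (4 * V ^ 2 + X ^ (-(η / 3))) *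
        ∑ p ∈ S, ∑ q ∈ S.erase p, (Cf (Qm w X η) p q - 1) := by
    refine (sum_le_sum fun p hp => sum_le_sum fun q hq => hb' p hp q hq).trans (le_of_eq ?_)
    simp only [mul_sum]
    rw [← sum_add_distrib]
    apply sum_congr rfl
    intro p _
    rw [← sum_add_distrib]
    apply sum_congr rfl
    intro q _
    ring
  have hA0 : 0 ≤ 2 * X / (primorial w : ℝ) * G ^ 2 * (V ^ 2 + X ^ (-(η / 3))) +
      X ^ (0.9998 : ℝ) := by positivity
  have hB0 : 0 ≤ 2 * X / (primorial w : ℝ) * G ^ 2 * (4 * V ^ 2 + X ^ (-(η / 3))) := by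
    positivity
  have hbound := hsum.trans (add_le_add (mul_le_mul_of_nonneg_left hone hA0)
    (mul_le_mul_of_nonneg_left hcf hB0))
  refine hbound.trans ?_
  -- the last term
  have hlast : X ^ (0.9998 : ℝ) ≤ 2 * X / (primorial w : ℝ) * G ^ 2 * (eps * η ^ 2 / 4) := by
    have h2 : X ^ (0.9998 : ℝ) = X * X ^ (-(0.0002 : ℝ)) := by
      nth_rewrite 2 [← Real.rpow_one X]
      rw [← Real.rpow_add hXpos]
      norm_num
    rw [h2]
    have h3 : X * X ^ (-(0.0002 : ℝ)) ≤ X * (eps * η ^ 2 / (4 * (primorial w : ℝ))) :=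
      mul_le_mul_of_nonneg_left f2.le hXpos.le
    have hG2 : (1 : ℝ) ≤ G ^ 2 := one_le_pow₀ hG1
    have h4 : 0 ≤ X / (primorial w : ℝ) * (eps * η ^ 2 / 4) := by positivity
    calc X * X ^ (-(0.0002 : ℝ)) ≤ X * (eps * η ^ 2 / (4 * (primorial w : ℝ))) := h3
      _ = X / (primorial w : ℝ) * (eps * η ^ 2 / 4) := by field_simp
      _ ≤ X / (primorial w : ℝ) * (eps * η ^ 2 / 4) * (2 * G ^ 2) := by
        nlinarith
      _ = 2 * X / (primorial w : ℝ) * G ^ 2 * (eps * η ^ 2 / 4) := by ring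
  set K : ℝ := 2 * X / (primorial w : ℝ) * G ^ 2 with hK
  have hK0 : 0 ≤ K := by positivity
  have hCw0 : 0 ≤ C / w := by positivity
  have hV2 : V ^ 2 ≤ 400 * η ^ 2 := by nlinarith
  have hgoal : 2 * X / (primorial w : ℝ) * ((N * G * V) ^ 2 + eps * (N * G * η) ^ 2) =
      K * N ^ 2 * (V ^ 2 + eps * η ^ 2) := by rw [hK]; ring
  rw [hgoal]
  have i1 : (4 * V ^ 2) * (C / w) ≤ eps * η ^ 2 / 4 := by
    calc (4 * V ^ 2) * (C / w) ≤ (4 * (400 * η ^ 2)) * (C / w) := by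
          apply mul_le_mul_of_nonneg_right _ hCw0
          linarith
      _ = (6400 * (C / w)) * η ^ 2 / 4 := by ring
      _ ≤ eps * η ^ 2 / 4 := by
        have := mul_le_mul_of_nonneg_right hwE (sq_nonneg η)
        linarith
  have i2 : X ^ (-(η / 3)) * (C / w) ≤ eps * η ^ 2 / 8 := by
    calc X ^ (-(η / 3)) * (C / w) ≤ X ^ (-(η / 3)) * 1 :=
          mul_le_mul_of_nonneg_left hwC hXη.le
      _ ≤ eps * η ^ 2 / 8 := by linarith
  have hKN : 0 ≤ K * N ^ 2 := by positivity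
  calc (K * (V ^ 2 + X ^ (-(η / 3))) + X ^ (0.9998 : ℝ)) * N ^ 2 +
        K * (4 * V ^ 2 + X ^ (-(η / 3))) * (C / w * N ^ 2)
      ≤ (K * (V ^ 2 + X ^ (-(η / 3))) + K * (eps * η ^ 2 / 4)) * N ^ 2 +
        K * (4 * V ^ 2 + X ^ (-(η / 3))) * (C / w * N ^ 2) := by
        have := mul_le_mul_of_nonneg_right hlast (sq_nonneg N)
        nlinarith
    _ = K * N ^ 2 * (V ^ 2 + (X ^ (-(η / 3)) + eps * η ^ 2 / 4 + (4 * V ^ 2) * (C / w) +
          X ^ (-(η / 3)) * (C / w))) := by ring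
    _ ≤ K * N ^ 2 * (V ^ 2 + eps * η ^ 2) := by
        apply mul_le_mul_of_nonneg_left _ hKN
        nlinarith

end Pool.Agent.PT
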