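import Pool.Agent.helper59.PT.Spec2
import Pool.Agent.helper80.LSZ.Loss

set_option linter.all false
set_option autoImplicit false

/-!
Rows pt:SG (one segment) and pt:FN (end) of the three copies inequality (MP_2dd521_co).
-/

namespace Pool.Agent.helper13.PT

open Pool.Agent.helper59.PT
open scoped ComplexConjugate ComplexOrder

theorem rowSG : RowSG := by
  intro hEX hWK hLG hDV γ γ' hγc hγd hqp hLeg m B hB
  set N : ℝ → ℝ := fun t => (KB (γ t) B).permanent.re with hN
  set q : ℝ → ℝ := fun t => perc (γ t) with hq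
  have hcj : ∀ j : Fin 3, ContinuousOn (fun t => γ t j) (Set.Icc 0 1) := fun j =>
    (continuous_apply j).comp_continuousOn hγc
  have hdj : ∀ t ∈ Set.Ioo (0 : ℝ) 1, ∀ j : Fin 3, HasDerivAt (fun t => γ t j) (γ' t j) t := by
    intro t ht j
    exact (hasDerivAt_pi.1 (hγd t ht)) j
  have hqd : ∀ t ∈ Set.Ioo (0 : ℝ) 1, HasDerivAt q (dperc (γ t) (γ' t)) t := by
    intro t ht
    have d0 := hdj t ht 0
    have d1 := hdj t ht 1
    have d2 := hdj t ht 2
    have h := (((d0.pow 3).add (d1.pow 3)).add (d2.pow 3)).add (((d0.const_mul 3).mul d1).mul d2)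
    refine HasDerivAt.congr_deriv h ?_
    push_cast
    simp only [Nat.add_one_sub_one, pow_two, Pi.mul_apply, dperc]
    ring
  have hNc : ContinuousOn N (Set.Icc 0 1) := by
    have h1 : ContinuousOn (fun t : ℝ => (KB (γ t) B).permanent) (Set.Icc 0 1) := by
      have : (fun t : ℝ => (KB (γ t) B).permanent) = fun t : ℝ =>
          ∑ σ : Equiv.Perm (Fin 3 × Fin m), ∏ x, (((circ (γ t) (σ x).1 x.1 : ℝ) : ℂ) *
            B (σ x).2 x.2) := by
        funext t
        simp [Matrix.permanent, KB]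
      rw [this]
      refine continuousOn_finset_sum _ fun σ _ => continuousOn_finset_prod _ fun x _ => ?_
      refine ContinuousOn.mul ?_ continuousOn_const
      exact Complex.continuous_ofReal.comp_continuousOn (hcj _)
    exact Complex.continuous_re.comp_continuousOn h1
  have hqc : ContinuousOn q (Set.Icc 0 1) := by
    have := (((hcj 0).pow 3).add ((hcj 1).pow 3)).add ((hcj 2).pow 3) |>.add
      ((((continuousOn_const (c := (3 : ℝ))).mul (hcj 0)).mul (hcj 1)).mul (hcj 2))
    exact this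
  have hder : ∀ t ∈ Set.Ioo (0 : ℝ) 1, ∃ d, 0 ≤ d ∧ HasDerivAt (fun t => N t / q t ^ m) d t := by
    intro t ht
    have hqt : 0 < q t := hqp t ⟨ht.1.le, ht.2.le⟩
    have hNd := hDV m B γ (γ' t) t (hγd t ht)
    have hd := hNd.div ((hqd t ht).pow m) (pow_pos hqt m).ne'
    refine ⟨_, ?_, hd⟩
    refine div_nonneg ?_ (by positivity)
    set q' := dperc (γ t) (γ' t) with hq'
    set Sm := ∑ s : Fin m, ∑ p : Fin 3,
      ((KB (γ t) B).updateRow (p, s) (fun y => (γ' t (y.1 - p) : ℂ) * B s y.2)).permanent.re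
      with hSm
    have hsum : (m : ℝ) * (q' * N t / q t) ≤ Sm := by
      have h2 : ∑ s : Fin m, q' * N t / q t ≤ Sm := by
        refine Finset.sum_le_sum fun s _ => ?_
        rw [div_le_iff₀ hqt]
        have h := hLG hEX hWK (γ t) (γ' t) (hLeg t ht) m B hB s
        calc q' * N t ≤ _ := h
          _ = _ := mul_comm _ _
      simpa using h2
    rcases Nat.eq_zero_or_pos m with hm | hm
    · subst hm
      have hz : Sm = 0 := by simp [hSm]
      rw [hz]
      simp
    · obtain ⟨k, rfl⟩ : ∃ k, m = k + 1 := ⟨m - 1, by omega⟩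
      have h3 := mul_le_mul_of_nonneg_right hsum (pow_pos hqt (k + 1)).le
      have h4 : ((k + 1 : ℕ) : ℝ) * (q' * N t / q t) * q t ^ (k + 1) =
          N t * (((k + 1 : ℕ) : ℝ) * q t ^ k * q') := by
        rw [pow_succ]
        field_simp
      rw [h4] at h3
      have h5 : (k + 1 - 1 : ℕ) = k := by omega
      rw [h5]
      simp only [Pi.pow_apply, hN] at h3 ⊢
      linarith
  have hM : MonotoneOn (fun t => N t / q t ^ m) (Set.Icc 0 1) := by
    refine monotoneOn_of_deriv_nonneg (convex_Icc 0 1) ?_ ?_ ?_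
    · refine ContinuousOn.div hNc (hqc.pow m) ?_
      intro t ht
      exact (pow_pos (hqp t ht) m).ne'
    · intro t ht
      rw [interior_Icc] at ht
      obtain ⟨d, -, hd⟩ := hder t ht
      exact hd.differentiableAt.differentiableWithinAt
    · intro t ht
      rw [interior_Icc] at ht
      obtain ⟨d, hd0, hd⟩ := hder t ht
      rw [hd.deriv]
      exact hd0
  have h01 := hM (Set.left_mem_Icc.2 zero_le_one) (Set.right_mem_Icc.2 zero_le_one) zero_le_one
  simp only at h01
  have q0 := hqp 0 (Set.left_mem_Icc.2 zero_le_one)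
  have q1 := hqp 1 (Set.right_mem_Icc.2 zero_le_one)
  rw [div_le_div_iff₀ (pow_pos q0 m) (pow_pos q1 m)] at h01
  exact h01

theorem rowFN : RowFN := by
  intro c0 c1 h0 h1 h01 hUp hBase m B hB
  have hN0 : KB ![1, 1, 1] B = Pool.Agent.helper80.LSZ.kron1 3 B := by
    ext x y
    have hc0 : ∀ j : Fin 3, (![1, 1, 1] : Fin 3 → ℝ) j = 1 := by
      intro j
      fin_cases j <;> rfl
    simp [KB, circ, hc0, Pool.Agent.helper80.LSZ.kron1]
  obtain ⟨b, hb0, hb⟩ := Pool.Agent.helper80.LSZ.per_real B hB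
  obtain ⟨p, hp0, hp⟩ := Pool.Agent.helper80.LSZ.per_real _
    (Pool.Agent.helper80.LSZ.kron1_psd B hB 3)
  have hA := hUp m B hB
  have hBs := hBase m B hB c0 c1 h0 h1
  have e1 : perc ![1, 1, 1] = 6 := by
    simp [perc]
    norm_num
  have e2 : perc ![c0, c1, 0] = c0 ^ 3 + c1 ^ 3 := by
    simp [perc]
  rw [e1, e2, hN0, hp] at hA
  rw [hb] at hBs
  have h6 : ((b : ℝ) : ℂ).re = b := Complex.ofReal_re b
  have h7 : ((p : ℝ) : ℂ).re = p := Complex.ofReal_re p
  rw [h6] at hBs
  rw [h7] at hA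
  have hpos : 0 < (c0 ^ 3 + c1 ^ 3) ^ m := pow_pos h01 m
  have hfin : (6 : ℝ) ^ m * b ^ 3 ≤ p := by
    have h8 := mul_le_mul_of_nonneg_right hBs (show (0 : ℝ) ≤ 6 ^ m by positivity)
    have h9 := h8.trans hA
    have h10 : 6 ^ m * b ^ 3 * (c0 ^ 3 + c1 ^ 3) ^ m ≤ p * (c0 ^ 3 + c1 ^ 3) ^ m := by
      calc _ = (c0 ^ 3 + c1 ^ 3) ^ m * b ^ 3 * 6 ^ m := by ring
        _ ≤ _ := h9
    exact le_of_mul_le_mul_right h10 hpos
  rw [hb, hp]
  exact_mod_cast hfin

end Pool.Agent.helper13.PT
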